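import Pool.Agent.Q225.IC.Stm

set_option autoImplicit false

open Finset
open Pool.Agent.Q225.IC

namespace Pool.Agent.Q102.IC

variable {X Y O : Type}

theorem sum_alice (f : X → unitInterval) (p q : Prot X Y O) (g : (Prot.alice f p q).T → ℝ) :
    ∑ t, g t = ∑ t : p.T, g (Sum.inl t) + ∑ t : q.T, g (Sum.inr t) :=
  Fintype.sum_sum_type (α₁ := p.T) (α₂ := q.T) g

theorem sum_bob (f : Y → unitInterval) (p q : Prot X Y O) (g : (Prot.bob f p q).T → ℝ) :
    ∑ t, g t = ∑ t : p.T, g (Sum.inl t) + ∑ t : q.T, g (Sum.inr t) :=
  Fintype.sum_sum_type (α₁ := p.T) (α₂ := q.T) g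

theorem sum_coin (s : unitInterval) (p q : Prot X Y O) (g : (Prot.coin s p q).T → ℝ) :
    ∑ t, g t = ∑ t : p.T, g (Sum.inl t) + ∑ t : q.T, g (Sum.inr t) :=
  Fintype.sum_sum_type (α₁ := p.T) (α₂ := q.T) g

theorem sum_out (o : O) (g : (Prot.out o : Prot X Y O).T → ℝ) : ∑ t, g t = g () :=
  Fintype.sum_unique (ι := Unit) g

theorem prob_sum (x : X) (y : Y) (p : Prot X Y O) : ∑ t : p.T, p.prob x y t = 1 := by
  induction p with
  | out o => rw [sum_out]; rfl
  | alice f p q hp hq =>
    rw [sum_alice]
    change ∑ t : p.T, (f x : ℝ) * p.prob x y t + ∑ t : q.T, (1 - (f x : ℝ)) * q.prob x y t = 1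
    rw [← Finset.mul_sum, ← Finset.mul_sum, hp, hq]; ring
  | bob f p q hp hq =>
    rw [sum_bob]
    change ∑ t : p.T, (f y : ℝ) * p.prob x y t + ∑ t : q.T, (1 - (f y : ℝ)) * q.prob x y t = 1
    rw [← Finset.mul_sum, ← Finset.mul_sum, hp, hq]; ring
  | coin s p q hp hq =>
    rw [sum_coin]
    change ∑ t : p.T, (s : ℝ) * p.prob x y t + ∑ t : q.T, (1 - (s : ℝ)) * q.prob x y t = 1
    rw [← Finset.mul_sum, ← Finset.mul_sum, hp, hq]; ring

theorem one_len (x : X) (y : Y) (p : Prot X Y O) (c : ℝ) :
    ∑ t : p.T, c * p.prob x y t * ((1 + p.len t : ℕ) : ℝ) = c * (1 + cst p x y) := by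
  unfold cst
  rw [mul_add, mul_one, Finset.mul_sum]
  have h : c = ∑ t : p.T, c * p.prob x y t := by
    rw [← Finset.mul_sum, prob_sum, mul_one]
  conv_rhs => rw [h]
  rw [← Finset.sum_add_distrib]
  refine Finset.sum_congr rfl fun t _ => ?_
  push_cast
  have h' : (∑ t : p.T, c * p.prob x y t) = c := h.symm
  rw [h']
  ring

theorem cst_alice (f : X → unitInterval) (p q : Prot X Y O) (x : X) (y : Y) :
    cst (Prot.alice f p q) x y =
      (f x : ℝ) * (1 + cst p x y) + (1 - (f x : ℝ)) * (1 + cst q x y) := by
  conv_lhs => unfold cst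
  rw [sum_alice, ← one_len x y p, ← one_len x y q]
  rfl

theorem cst_bob (f : Y → unitInterval) (p q : Prot X Y O) (x : X) (y : Y) :
    cst (Prot.bob f p q) x y =
      (f y : ℝ) * (1 + cst p x y) + (1 - (f y : ℝ)) * (1 + cst q x y) := by
  conv_lhs => unfold cst
  rw [sum_bob, ← one_len x y p, ← one_len x y q]
  rfl

theorem askA (k : ℕ) : ∀ (f : X → Bits k) (q : Bits k → Prot X Y O), ∃ p : Prot X Y O, ∀ x y,
    cst p x y = k + cst (q (f x)) x y ∧ ∀ o, (zer (q (f x)) x y o → zer p x y o) := by
  induction k with
  | zero =>
    intro f q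
    refine ⟨q Fin.elim0, fun x y => ?_⟩
    have h : f x = Fin.elim0 := Subsingleton.elim _ _
    rw [h]
    exact ⟨by simp, fun o h => h⟩
  | succ k ih =>
    intro f q
    obtain ⟨p1, h1⟩ := ih (fun x => Fin.tail (f x)) (fun b => q (Fin.cons true b))
    obtain ⟨p2, h2⟩ := ih (fun x => Fin.tail (f x)) (fun b => q (Fin.cons false b))
    refine ⟨Prot.alice (fun x => if f x 0 = true then 1 else 0) p1 p2, fun x y => ?_⟩
    have hc : (Fin.cons (f x 0) (Fin.tail (f x)) : Bits (k + 1)) = f x := Fin.cons_self_tail (f x)
    rw [cst_alice]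
    by_cases hx : f x 0 = true
    · rw [hx] at hc
      have e1 := h1 x y
      simp only [hc] at e1
      simp only [hx, if_true]
      constructor
      · rw [e1.1]
        simp only [Set.Icc.coe_one]
        push_cast
        ring
      · intro o ho t ht
        rcases t with t | t
        · apply e1.2 o ho t
          intro h0
          apply ht
          change ((if f x 0 = true then (1 : unitInterval) else 0 : unitInterval) : ℝ) * p1.prob x y t = 0
          rw [h0, mul_zero]
        · exfalso
          apply ht
          change (1 - ((if f x 0 = true then (1 : unitInterval) else 0 : unitInterval) : ℝ)) *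
            p2.prob x y t = 0
          rw [if_pos hx]
          simp
    · have hx' : f x 0 = false := by simpa using hx
      rw [hx'] at hc
      have e1 := h2 x y
      simp only [hc] at e1
      simp only [hx', Bool.false_eq_true, if_false]
      constructor
      · rw [e1.1]
        simp only [Set.Icc.coe_zero]
        push_cast
        ring
      · intro o ho t ht
        rcases t with t | t
        · exfalso
          apply ht
          change ((if f x 0 = true then (1 : unitInterval) else 0 : unitInterval) : ℝ) * p1.prob x y t = 0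
          rw [if_neg hx]
          simp
        · apply e1.2 o ho t
          intro h0
          apply ht
          change (1 - ((if f x 0 = true then (1 : unitInterval) else 0 : unitInterval) : ℝ)) *
            p2.prob x y t = 0
          rw [h0, mul_zero]

theorem askB (k : ℕ) : ∀ (f : Y → Bits k) (q : Bits k → Prot X Y O), ∃ p : Prot X Y O, ∀ x y,
    cst p x y = k + cst (q (f y)) x y ∧ ∀ o, (zer (q (f y)) x y o → zer p x y o) := by
  induction k with
  | zero =>
    intro f q
    refine ⟨q Fin.elim0, fun x y => ?_⟩
    have h : f y = Fin.elim0 := Subsingleton.elim _ _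
    rw [h]
    exact ⟨by simp, fun o h => h⟩
  | succ k ih =>
    intro f q
    obtain ⟨p1, h1⟩ := ih (fun x => Fin.tail (f x)) (fun b => q (Fin.cons true b))
    obtain ⟨p2, h2⟩ := ih (fun x => Fin.tail (f x)) (fun b => q (Fin.cons false b))
    refine ⟨Prot.bob (fun x => if f x 0 = true then 1 else 0) p1 p2, fun x y => ?_⟩
    have hc : (Fin.cons (f y 0) (Fin.tail (f y)) : Bits (k + 1)) = f y := Fin.cons_self_tail (f y)
    rw [cst_bob]
    by_cases hx : f y 0 = true
    · rw [hx] at hc
      have e1 := h1 x y
      simp only [hc] at e1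
      simp only [hx, if_true]
      constructor
      · rw [e1.1]
        simp only [Set.Icc.coe_one]
        push_cast
        ring
      · intro o ho t ht
        rcases t with t | t
        · apply e1.2 o ho t
          intro h0
          apply ht
          change ((if f y 0 = true then (1 : unitInterval) else 0 : unitInterval) : ℝ) * p1.prob x y t = 0
          rw [h0, mul_zero]
        · exfalso
          apply ht
          change (1 - ((if f y 0 = true then (1 : unitInterval) else 0 : unitInterval) : ℝ)) *
            p2.prob x y t = 0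
          rw [if_pos hx]
          simp
    · have hx' : f y 0 = false := by simpa using hx
      rw [hx'] at hc
      have e1 := h2 x y
      simp only [hc] at e1
      simp only [hx', Bool.false_eq_true, if_false]
      constructor
      · rw [e1.1]
        simp only [Set.Icc.coe_zero]
        push_cast
        ring
      · intro o ho t ht
        rcases t with t | t
        · exfalso
          apply ht
          change ((if f y 0 = true then (1 : unitInterval) else 0 : unitInterval) : ℝ) * p1.prob x y t = 0
          rw [if_neg hx]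
          simp
        · apply e1.2 o ho t
          intro h0
          apply ht
          change (1 - ((if f y 0 = true then (1 : unitInterval) else 0 : unitInterval) : ℝ)) *
            p2.prob x y t = 0
          rw [h0, mul_zero]

theorem t_ASK : S_ASK := fun _ _ _ k => ⟨askA k, askB k⟩

theorem t_ZE : S_ZE := by
  intro m F
  have hB : ∀ b : Bits m, ∃ p : Prot (Bits m) (Bits m) Bool, ∀ x y, zer p x y (F b y) := by
    intro b
    obtain ⟨p, hp⟩ := askB (X := Bits m) (Y := Bits m) (O := Bool) 1 (fun y => fun _ => F b y)
      (fun c => Prot.out (c 0))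
    exact ⟨p, fun x y => (hp x y).2 _ (fun t _ => rfl)⟩
  choose q hq using hB
  obtain ⟨p, hp⟩ := askA (X := Bits m) (Y := Bits m) (O := Bool) m (fun x => x) q
  exact ⟨p, fun x y t ht => (hp x y).2 (F x y) (hq x x y) t ht⟩

end Pool.Agent.Q102.IC
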