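import Pool.Agent.Q225.IC.Stm

set_option autoImplicit false

open Finset
open Pool.Agent.Q225.IC

namespace Pool.Agent.Q102.IC

section basic

variable {P : Type} [Fintype P] [DecidableEq P] {r : ℕ} {A : XX P → ℝ} {B : YY P r → ℝ}

theorem FS_nonneg (hA : ∀ x, 0 ≤ A x) (c : P) (e : Ed) : 0 ≤ FS A c e := by
  unfold FS
  refine Finset.sum_nonneg fun v _ => ?_
  split_ifs
  · exact hA _
  · exact le_rfl

theorem GS_nonneg (hB : ∀ y, 0 ≤ B y) (c : P) (b : ZMod 5) : 0 ≤ GS B c b := by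
  unfold GS
  refine Finset.sum_nonneg fun v _ => ?_
  split_ifs
  · exact hB _
  · exact le_rfl

theorem mm_nonneg (hA : ∀ x, 0 ≤ A x) (hB : ∀ y, 0 ≤ B y) (c : P) (e : Ed) : 0 ≤ mm A B c e := by
  unfold mm
  refine Finset.sum_nonneg fun v _ => Finset.sum_nonneg fun z _ => ?_
  split_ifs
  · exact mul_nonneg (hA _) (hB _)
  · exact le_rfl

theorem MM_nonneg (hA : ∀ x, 0 ≤ A x) (hB : ∀ y, 0 ≤ B y) (c : P) (e : Ed) (b : ZMod 5) :
    0 ≤ MM A B c e b := by
  unfold MM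
  refine Finset.sum_nonneg fun v _ => Finset.sum_nonneg fun z _ => ?_
  split_ifs
  · exact mul_nonneg (hA _) (hB _)
  · exact le_rfl

theorem FS_mul_GS (c : P) (e : Ed) (b : ZMod 5) : FS A c e * GS B c b =
    ∑ v : P, ∑ z : Tb P r, if v ≠ c ∧ z c = 0 then A (xin e c v) * B (b, z) else 0 := by
  unfold FS GS
  rw [Finset.sum_mul_sum]
  refine Finset.sum_congr rfl fun v _ => Finset.sum_congr rfl fun z _ => ?_
  by_cases h1 : v ≠ c
  · by_cases h2 : z c = 0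
    · rw [if_pos h1, if_pos h2, if_pos ⟨h1, h2⟩]
    · rw [if_neg h2, mul_zero, if_neg (fun h => h2 h.2)]
  · rw [if_neg h1, zero_mul, if_neg (fun h => h1 h.1)]

theorem FG_eq (c : P) (e : Ed) : FS A c e * GS B c (bv e) = mm A B c e + MM A B c e (bv e) := by
  rw [FS_mul_GS]
  unfold mm MM
  rw [← Finset.sum_add_distrib]
  refine Finset.sum_congr rfl fun v _ => ?_
  rw [← Finset.sum_add_distrib]
  refine Finset.sum_congr rfl fun z _ => ?_
  unfold ok bo
  by_cases h1 : v ≠ c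
  · by_cases h2 : z c = 0
    · by_cases h3 : z v = 0
      · rw [if_pos ⟨h1, h2⟩, if_neg (fun h => h.2.2 h3), if_pos ⟨h1, h2, h3⟩, zero_add]
      · rw [if_pos ⟨h1, h2⟩, if_pos ⟨h1, h2, h3⟩, if_neg (fun h => h3 h.2.2), add_zero]
    · rw [if_neg (fun h => h2 h.2), if_neg (fun h => h2 h.2.1), if_neg (fun h => h2 h.2.1), add_zero]
  · rw [if_neg (fun h => h1 h.1), if_neg (fun h => h1 h.1), if_neg (fun h => h1 h.1), add_zero]

theorem mm_le (hA : ∀ x, 0 ≤ A x) (hB : ∀ y, 0 ≤ B y) (c : P) (e : Ed) :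
    mm A B c e ≤ FS A c e * GS B c (bv e) := by
  rw [FG_eq]
  have := MM_nonneg hA hB c e (bv e)
  linarith

theorem Nb_nonneg (P : Type) [Fintype P] (r : ℕ) (h : 2 ≤ Fintype.card P) : 0 ≤ Nb P r := by
  unfold Nb
  have h2 : (2 : ℝ) ≤ Fintype.card P := by exact_mod_cast h
  have h3 : (0 : ℝ) ≤ (Fintype.card P : ℝ) - 1 := by linarith
  positivity

end basic

end Pool.Agent.Q102.IC
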