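import Pool.Agent.Q102.IC.Basic

set_option autoImplicit false

open Finset
open Pool.Agent.Q225.IC

namespace Pool.Agent.Q102.IC

/-- the weight of a leaf on the pairs `(v,z)` -/
noncomputable def uu {P : Type} [Fintype P] [DecidableEq P] {r : ℕ} (A : XX P → ℝ)
    (B : YY P r → ℝ) (c : P) (e : Ed) (v : P) (z : Tb P r) : ℝ :=
  if ok c v z then A (xin e c v) * B (bv e, z) else 0

theorem Sp_uu {P : Type} [Fintype P] [DecidableEq P] {r : ℕ} {A : XX P → ℝ}
    {B : YY P r → ℝ} {c : P} {e : Ed} {D : ℝ} (hA : ∀ x, 0 ≤ A x) (hB : ∀ y, 0 ≤ B y)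
    (hm : 0 < mm A B c e) (hK : KL A B c e ≤ D * mm A B c e) :
    Sp c (uu A B c e) (mm A B c e) D := by
  refine ⟨fun v z => ?_, fun v z h => ?_, rfl, hm, ?_⟩
  · unfold uu
    split_ifs
    · exact mul_nonneg (hA _) (hB _)
    · exact le_rfl
  · unfold uu
    rw [if_neg h]
  · refine le_trans (le_of_eq ?_) hK
    unfold KL
    refine Finset.sum_congr rfl fun v _ => Finset.sum_congr rfl fun z _ => ?_
    unfold uu
    split_ifs
    · rfl
    · simp

theorem sum_z_le {P : Type} [Fintype P] [DecidableEq P] {r : ℕ} {A : XX P → ℝ}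
    {B : YY P r → ℝ} (hA : ∀ x, 0 ≤ A x) (hB : ∀ y, 0 ≤ B y) (c : P) (e : Ed) (v : P) :
    ∑ z, uu A B c e v z ≤ A (xin e c v) * GS B c (bv e) := by
  unfold GS
  rw [Finset.mul_sum]
  refine Finset.sum_le_sum fun z _ => ?_
  unfold uu
  by_cases h : ok c v z
  · rw [if_pos h, if_pos h.2.1]
  · rw [if_neg h]
    apply mul_nonneg (hA _)
    split_ifs
    · exact hB _
    · exact le_rfl

theorem sum_v_le {P : Type} [Fintype P] [DecidableEq P] {r : ℕ} {A : XX P → ℝ}
    {B : YY P r → ℝ} (hA : ∀ x, 0 ≤ A x) (hB : ∀ y, 0 ≤ B y) (c : P) (e : Ed) (z : Tb P r) :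
    ∑ v, uu A B c e v z ≤ FS A c e * B (bv e, z) := by
  unfold FS
  rw [Finset.sum_mul]
  refine Finset.sum_le_sum fun v _ => ?_
  unfold uu
  by_cases h : ok c v z
  · rw [if_pos h, if_pos h.1]
  · rw [if_neg h]
    apply mul_nonneg _ (hB _)
    split_ifs
    · exact hA _
    · exact le_rfl

theorem uu_nonneg {P : Type} [Fintype P] [DecidableEq P] {r : ℕ} {A : XX P → ℝ}
    {B : YY P r → ℝ} (hA : ∀ x, 0 ≤ A x) (hB : ∀ y, 0 ≤ B y) (c : P) (e : Ed) (v : P)
    (z : Tb P r) : 0 ≤ uu A B c e v z := by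
  unfold uu
  split_ifs
  · exact mul_nonneg (hA _) (hB _)
  · exact le_rfl

theorem t_C (h_TT : S_TT) : S_C := by
  intro r D hr hD
  obtain ⟨n0, hn0⟩ := h_TT r D (1 / 2) hr hD (by norm_num) (by norm_num)
  refine ⟨n0, ?_⟩
  intro P _ _ A B c e e' hn hA hB hm hm' hK hK' hM hM'
  have h1 := hn0 P c (uu A B c e) (uu A B c e') (mm A B c e) (mm A B c e') hn
    (Sp_uu hA hB hm hK) (Sp_uu hA hB hm' hK')
  set m := mm A B c e with hmdef
  set m' := mm A B c e' with hm'def
  set F := FS A c e with hF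
  set G' := GS B c (bv e') with hG'
  have nF : 0 ≤ F := FS_nonneg hA _ _
  have nG' : 0 ≤ G' := GS_nonneg hB _ _
  have hFG : F * GS B c (bv e) ≤ 2 * m := by
    rw [hF, FG_eq]; linarith
  have hFG' : FS A c e' * G' ≤ 2 * m' := by
    rw [hG', FG_eq]; linarith
  have k1 : ∀ v, F * ∑ z, uu A B c e v z ≤ 2 * m * A (xin e c v) := by
    intro v
    calc F * ∑ z, uu A B c e v z ≤ F * (A (xin e c v) * GS B c (bv e)) :=
          mul_le_mul_of_nonneg_left (sum_z_le hA hB c e v) nF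
      _ = F * GS B c (bv e) * A (xin e c v) := by ring
      _ ≤ 2 * m * A (xin e c v) := mul_le_mul_of_nonneg_right hFG (hA _)
  have k2 : ∀ z, G' * ∑ v, uu A B c e' v z ≤ 2 * m' * B (bv e', z) := by
    intro z
    calc G' * ∑ v, uu A B c e' v z ≤ G' * (FS A c e' * B (bv e', z)) :=
          mul_le_mul_of_nonneg_left (sum_v_le hA hB c e' z) nG'
      _ = FS A c e' * G' * B (bv e', z) := by ring
      _ ≤ 2 * m' * B (bv e', z) := mul_le_mul_of_nonneg_right hFG' (hB _)
  have h2 : F * G' * (∑ v : P, ∑ z : Tb P r, if bo c v z then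
      (∑ z1, uu A B c e v z1) * (∑ v1, uu A B c e' v1 z) else 0) ≤
      4 * m * m' * MM A B c e (bv e') := by
    unfold MM
    rw [Finset.mul_sum, Finset.mul_sum]
    refine Finset.sum_le_sum fun v _ => ?_
    rw [Finset.mul_sum, Finset.mul_sum]
    refine Finset.sum_le_sum fun z _ => ?_
    split_ifs
    · calc F * G' * ((∑ z1, uu A B c e v z1) * ∑ v1, uu A B c e' v1 z)
          = (F * ∑ z1, uu A B c e v z1) * (G' * ∑ v1, uu A B c e' v1 z) := by ring
        _ ≤ (2 * m * A (xin e c v)) * (2 * m' * B (bv e', z)) := by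
            apply mul_le_mul (k1 v) (k2 z)
            · exact mul_nonneg nG' (Finset.sum_nonneg fun v1 _ => uu_nonneg hA hB _ _ _ _)
            · exact mul_nonneg (by positivity) (hA _)
        _ = 4 * m * m' * (A (xin e c v) * B (bv e', z)) := by ring
    · simp
  have hr1 : (0 : ℝ) < (r : ℝ) + 1 := by positivity
  have h3 : F * G' * ((1 - 1 / 2) / ((r : ℝ) + 1) * (m * m')) ≤ 4 * m * m' * MM A B c e (bv e') :=
    (mul_le_mul_of_nonneg_left h1 (mul_nonneg nF nG')).trans h2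
  have hmm : 0 < m * m' := mul_pos hm hm'
  have h4 : (m * m') * (F * G') ≤ (m * m') * (8 * ((r : ℝ) + 1) * MM A B c e (bv e')) := by
    have e1 : F * G' * ((1 - 1 / 2) / ((r : ℝ) + 1) * (m * m')) * (2 * ((r : ℝ) + 1)) =
        (m * m') * (F * G') := by
      field_simp
      norm_num
    have h5 := mul_le_mul_of_nonneg_right h3 (show 0 ≤ 2 * ((r : ℝ) + 1) by positivity)
    rw [e1] at h5
    calc (m * m') * (F * G') ≤ 4 * m * m' * MM A B c e (bv e') * (2 * ((r : ℝ) + 1)) := h5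
      _ = (m * m') * (8 * ((r : ℝ) + 1) * MM A B c e (bv e')) := by ring
  exact le_of_mul_le_mul_left h4 hmm

end Pool.Agent.Q102.IC
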