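import Pool.Agent.Q225.IC.Stm

set_option autoImplicit false

open Finset
open Pool.Agent.Q225.IC

namespace Pool.Agent.Q102.IC

theorem push_sum {Q S T : Type} [Fintype Q] [Fintype S] [Fintype T] [DecidableEq S]
    [DecidableEq T] (o : Q → Prop) [DecidablePred o] (a : Q → S) (b : Q → T) (h : S → T → ℝ) :
    ∑ s, ∑ t, (∑ q, if o q ∧ a q = s ∧ b q = t then (1 : ℝ) else 0) * h s t =
      ∑ q, if o q then h (a q) (b q) else 0 := by
  have e1 : ∀ s t, (∑ q, if o q ∧ a q = s ∧ b q = t then (1 : ℝ) else 0) * h s t =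
      ∑ q, if o q ∧ a q = s ∧ b q = t then h s t else 0 := by
    intro s t
    rw [Finset.sum_mul]
    refine Finset.sum_congr rfl fun q _ => ?_
    split_ifs <;> simp
  simp only [e1]
  have e2 : ∀ s, ∑ t, ∑ q, (if o q ∧ a q = s ∧ b q = t then h s t else 0) =
      ∑ q, ∑ t, (if o q ∧ a q = s ∧ b q = t then h s t else 0) := fun s => Finset.sum_comm
  simp only [e2]
  rw [Finset.sum_comm]
  refine Finset.sum_congr rfl fun q _ => ?_
  by_cases hq : o q
  · rw [if_pos hq, Finset.sum_eq_single (a q), Finset.sum_eq_single (b q)]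
    · rw [if_pos ⟨hq, rfl, rfl⟩]
    · intro t _ ht
      rw [if_neg (fun h => ht h.2.2.symm)]
    · intro h; exact absurd (mem_univ _) h
    · intro s _ hs
      apply Finset.sum_eq_zero
      intro t _
      rw [if_neg (fun h => hs h.2.1.symm)]
    · intro h; exact absurd (mem_univ _) h
  · rw [if_neg hq]
    apply Finset.sum_eq_zero
    intro s _
    apply Finset.sum_eq_zero
    intro t _
    rw [if_neg (fun h => hq h.1)]

section

variable {k r m : ℕ}

theorem lawE_sum (eX : XX (Bits k) → Bits m) (eY : YY (Bits k) r → Bits m)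
    (h : Bits m → Bits m → ℝ) :
    ∑ s, ∑ t, lawE eX eY s t * h s t =
      (∑ e : Ed, ∑ w : Bits k, ∑ v : Bits k, ∑ z : Tb (Bits k) r,
        if ok w v z then h (eX (xin e w v)) (eY (bv e, z)) else 0) / NS (Bits k) r := by
  have e0 := push_sum (Q := Ed × Bits k × Bits k × Tb (Bits k) r)
    (fun q => ok q.2.1 q.2.2.1 q.2.2.2) (fun q => eX (xin q.1 q.2.1 q.2.2.1))
    (fun q => eY (bv q.1, q.2.2.2)) h
  simp only [Fintype.sum_prod_type] at e0
  unfold lawE
  have e1 : ∀ s t, (∑ e : Ed, ∑ w : Bits k, ∑ v : Bits k, ∑ z : Tb (Bits k) r,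
      if ok w v z ∧ eX (xin e w v) = s ∧ eY (bv e, z) = t then (1 : ℝ) else 0) / NS (Bits k) r
      * h s t = ((∑ e : Ed, ∑ w : Bits k, ∑ v : Bits k, ∑ z : Tb (Bits k) r,
      if ok w v z ∧ eX (xin e w v) = s ∧ eY (bv e, z) = t then (1 : ℝ) else 0) * h s t)
      / NS (Bits k) r := fun s t => by ring
  simp only [e1]
  simp only [← Finset.sum_div]
  congr 1
  simp only [Ed, Fintype.sum_prod_type]
  exact e0

theorem bits_card (k : ℕ) : Fintype.card (Bits k) = 2 ^ k := by
  simp [Bits]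

theorem NS_pos (k r : ℕ) (hr : 1 ≤ r) (hk : 1 ≤ k) : 0 < NS (Bits k) r := by
  unfold NS
  have h1 : (2 : ℝ) ≤ Fintype.card (Bits k) := by
    rw [bits_card]
    push_cast
    calc (2 : ℝ) = 2 ^ 1 := by norm_num
      _ ≤ 2 ^ k := pow_le_pow_right₀ (by norm_num) hk
  have h2 : (0 : ℝ) < (Fintype.card (Bits k) : ℝ) - 1 := by linarith
  have h3 : (1 : ℝ) ≤ r := by exact_mod_cast hr
  have h4 : (0 : ℝ) < (Fintype.card (Bits k) : ℝ) := by linarith
  positivity

theorem count_ok (h_CNT : S_CNT) (P : Type) [Fintype P] [DecidableEq P] (r : ℕ) :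
    (∑ _e : Ed, ∑ w : P, ∑ v : P, ∑ z : Tb P r, if ok w v z then (1 : ℝ) else 0) = NS P r := by
  have h1 : ∀ w v : P, (∑ z : Tb P r, if ok w v z then (1 : ℝ) else 0) =
      if v ≠ w then (r * ((r : ℝ) + 1) ^ (Fintype.card P - 2)) else 0 := by
    intro w v
    by_cases hv : v ≠ w
    · rw [if_pos hv, Finset.sum_boole]
      have h2 := (h_CNT P r w v hv).1
      have h3 : (univ.filter (fun z : Tb P r => ok w v z)) =
          univ.filter (fun z : Tb P r => z w = 0 ∧ z v ≠ 0) := by
        ext z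
        simp only [mem_filter, mem_univ, true_and]
        unfold ok
        exact ⟨fun h => h.2, fun h => ⟨hv, h⟩⟩
      rw [h3, h2]
      push_cast
      ring
    · rw [if_neg hv]
      apply Finset.sum_eq_zero
      intro z _
      rw [if_neg (fun h => hv h.1)]
  simp only [h1]
  have h4 : ∀ w : P, (∑ v : P, if v ≠ w then (r * ((r : ℝ) + 1) ^ (Fintype.card P - 2)) else 0) =
      ((Fintype.card P : ℝ) - 1) * (r * ((r : ℝ) + 1) ^ (Fintype.card P - 2)) := by
    intro w
    rw [← Finset.sum_filter, Finset.sum_const, Finset.filter_ne', Finset.card_erase_of_mem (mem_univ _),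
      nsmul_eq_mul, Finset.card_univ, Nat.cast_sub (Fintype.card_pos_iff.2 ⟨w⟩), Nat.cast_one]
  simp only [h4]
  rw [Finset.sum_const, Finset.sum_const, Finset.card_univ, Finset.card_univ]
  have h5 : Fintype.card Ed = 10 := by
    simp [Ed, ZMod.card]
  rw [h5]
  unfold NS
  simp only [nsmul_eq_mul]
  push_cast
  ring

end

theorem t_LAW (h_CNT : S_CNT) : S_LAW := by
  intro k r m eX eY hr hk
  have hN := NS_pos k r hr hk
  constructor
  · intro s t
    unfold lawE
    apply div_nonneg _ hN.le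
    refine Finset.sum_nonneg fun e _ => Finset.sum_nonneg fun w _ => Finset.sum_nonneg fun v _ =>
      Finset.sum_nonneg fun z _ => ?_
    split_ifs
    · exact zero_le_one
    · exact le_rfl
  · have h := lawE_sum eX eY (fun _ _ => (1 : ℝ))
    simp only [mul_one] at h
    rw [h, count_ok h_CNT, div_self hN.ne']

theorem t_LIFT : S_LIFT := by
  intro k r m eX eY p α β hr hk hp
  have hN := NS_pos k r hr hk
  have hT : ∀ t : p.T, ∑ x, ∑ y, lawE eX eY x y * p.prob x y t =
      Tt (fun x => α t (eX x)) (fun y => β t (eY y)) / NS (Bits k) r := by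
    intro t
    rw [lawE_sum eX eY (fun x y => p.prob x y t)]
    unfold Tt mm
    simp only [hp]
  unfold info
  have e1 : (∑ x, ∑ y, ∑ t : p.T, lawE eX eY x y * (p.prob x y t *
      Real.logb 2 (p.prob x y t / ∑ x', ∑ y', lawE eX eY x' y' * p.prob x' y' t))) =
      ∑ t : p.T, ∑ x, ∑ y, lawE eX eY x y * (p.prob x y t *
      Real.logb 2 (p.prob x y t / ∑ x', ∑ y', lawE eX eY x' y' * p.prob x' y' t)) := by
    have e2 : ∀ x, (∑ y, ∑ t : p.T, lawE eX eY x y * (p.prob x y t *
      Real.logb 2 (p.prob x y t / ∑ x', ∑ y', lawE eX eY x' y' * p.prob x' y' t))) =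
      ∑ t : p.T, ∑ y, lawE eX eY x y * (p.prob x y t *
      Real.logb 2 (p.prob x y t / ∑ x', ∑ y', lawE eX eY x' y' * p.prob x' y' t)) :=
      fun x => Finset.sum_comm
    simp only [e2]
    exact Finset.sum_comm
  rw [e1, Finset.sum_div]
  refine Finset.sum_congr rfl fun t _ => ?_
  rw [hT t, lawE_sum eX eY (fun x y => p.prob x y t * Real.logb 2 (p.prob x y t /
    (Tt (fun x => α t (eX x)) (fun y => β t (eY y)) / NS (Bits k) r)))]
  unfold Ll
  rw [Finset.sum_div, Finset.sum_div]
  refine Finset.sum_congr rfl fun e _ => ?_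
  rw [Finset.sum_div, Finset.sum_div]
  refine Finset.sum_congr rfl fun w _ => ?_
  rw [Finset.sum_div, Finset.sum_div]
  refine Finset.sum_congr rfl fun v _ => ?_
  rw [Finset.sum_div, Finset.sum_div]
  refine Finset.sum_congr rfl fun z _ => ?_
  split_ifs
  · rw [hp, div_div_eq_mul_div, Real.logb]
    rw [← div_div, mul_div_assoc]
    rw [mul_div_assoc, mul_div_assoc]
    ring
  · simp

end Pool.Agent.Q102.IC
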