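import Pool.Agent.Q102.IC.Basic

set_option autoImplicit false

open Finset
open Pool.Agent.Q225.IC

namespace Pool.Agent.Q102.IC

theorem min_le_sqrt {x y a b c d : ℝ} (hx : 0 ≤ x) (hy : 0 ≤ y) (ha : 0 ≤ a) (hb : 0 ≤ b)
    (_hc : 0 ≤ c) (hd : 0 ≤ d) (h1 : x ≤ a * b) (h2 : y ≤ c * d) :
    min x y ≤ Real.sqrt (a * d) * Real.sqrt (c * b) := by
  rw [← Real.sqrt_mul (mul_nonneg ha hd)]
  apply Real.le_sqrt_of_sq_le
  have h3 : min x y * min x y ≤ x * y :=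
    mul_le_mul (min_le_left _ _) (min_le_right _ _) (le_min hx hy) hx
  have h4 : x * y ≤ (a * b) * (c * d) := mul_le_mul h1 h2 hy (mul_nonneg ha hb)
  calc min x y ^ 2 = min x y * min x y := sq _
    _ ≤ (a * b) * (c * d) := h3.trans h4
    _ = a * d * (c * b) := by ring

theorem t_OV (h_SUM : S_SUM) : S_OV := by
  intro P _ _ r ι _ A B c e e' G η hr hP hCh hG hη hM
  obtain ⟨hA, hB, -⟩ := id hCh
  obtain ⟨-, -, -, hS4⟩ := h_SUM P r ι A B c hr hP hCh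
  have hNb := Nb_nonneg P r hP
  have hr1 : (0 : ℝ) ≤ (r : ℝ) + 1 := by positivity
  set F : ι → ℝ := fun i => FS (A i) (c i) e with hF
  set F' : ι → ℝ := fun i => FS (A i) (c i) e' with hF'
  set g : ι → ℝ := fun i => GS (B i) (c i) (bv e) with hg
  set g' : ι → ℝ := fun i => GS (B i) (c i) (bv e') with hg'
  have nF : ∀ i, 0 ≤ F i := fun i => FS_nonneg (hA i) _ _
  have nF' : ∀ i, 0 ≤ F' i := fun i => FS_nonneg (hA i) _ _
  have ng : ∀ i, 0 ≤ g i := fun i => GS_nonneg (hB i) _ _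
  have ng' : ∀ i, 0 ≤ g' i := fun i => GS_nonneg (hB i) _ _
  have h1 : ∑ i ∈ G, min (mm (A i) (B i) (c i) e) (mm (A i) (B i) (c i) e') ≤
      ∑ i ∈ G, Real.sqrt (F i * g' i) * Real.sqrt (F' i * g i) :=
    Finset.sum_le_sum fun i _ => min_le_sqrt (mm_nonneg (hA i) (hB i) _ _)
      (mm_nonneg (hA i) (hB i) _ _) (nF i) (ng i) (nF' i) (ng' i)
      (mm_le (hA i) (hB i) _ _) (mm_le (hA i) (hB i) _ _)
  have h2 := Real.sum_mul_le_sqrt_mul_sqrt G (fun i => Real.sqrt (F i * g' i))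
    (fun i => Real.sqrt (F' i * g i))
  have e1 : ∑ i ∈ G, Real.sqrt (F i * g' i) ^ 2 = ∑ i ∈ G, F i * g' i :=
    Finset.sum_congr rfl fun i _ => Real.sq_sqrt (mul_nonneg (nF i) (ng' i))
  have e2 : ∑ i ∈ G, Real.sqrt (F' i * g i) ^ 2 = ∑ i ∈ G, F' i * g i :=
    Finset.sum_congr rfl fun i _ => Real.sq_sqrt (mul_nonneg (nF' i) (ng i))
  rw [e1, e2] at h2
  have h3 : ∑ i ∈ G, F i * g' i ≤ 8 * ((r : ℝ) + 1) * (η * Nb P r) := by
    calc ∑ i ∈ G, F i * g' i ≤ ∑ i ∈ G, 8 * ((r : ℝ) + 1) * MM (A i) (B i) (c i) e (bv e') :=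
          Finset.sum_le_sum fun i hi => hG i hi
      _ = 8 * ((r : ℝ) + 1) * ∑ i ∈ G, MM (A i) (B i) (c i) e (bv e') := by rw [Finset.mul_sum]
      _ ≤ 8 * ((r : ℝ) + 1) * ∑ i, MM (A i) (B i) (c i) e (bv e') := by
          apply mul_le_mul_of_nonneg_left _ (by positivity)
          exact Finset.sum_le_sum_of_subset_of_nonneg (subset_univ _)
            fun i _ _ => MM_nonneg (hA i) (hB i) _ _ _
      _ ≤ 8 * ((r : ℝ) + 1) * (η * Nb P r) := mul_le_mul_of_nonneg_left hM (by positivity)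
  have h4 : ∑ i ∈ G, F' i * g i ≤ ((r : ℝ) + 1) * Nb P r := by
    calc ∑ i ∈ G, F' i * g i ≤ ∑ i, F' i * g i :=
          Finset.sum_le_sum_of_subset_of_nonneg (subset_univ _)
            fun i _ _ => mul_nonneg (nF' i) (ng i)
      _ ≤ ((r : ℝ) + 1) * Nb P r := hS4 e' (bv e)
  calc ∑ i ∈ G, min (mm (A i) (B i) (c i) e) (mm (A i) (B i) (c i) e')
      ≤ Real.sqrt (∑ i ∈ G, F i * g' i) * Real.sqrt (∑ i ∈ G, F' i * g i) := h1.trans h2
    _ ≤ Real.sqrt (8 * ((r : ℝ) + 1) * (η * Nb P r)) * Real.sqrt (((r : ℝ) + 1) * Nb P r) :=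
        mul_le_mul (Real.sqrt_le_sqrt h3) (Real.sqrt_le_sqrt h4) (Real.sqrt_nonneg _)
          (Real.sqrt_nonneg _)
    _ = ((r : ℝ) + 1) * Nb P r * Real.sqrt (8 * η) := by
        rw [← Real.sqrt_mul (by positivity)]
        have e3 : 8 * ((r : ℝ) + 1) * (η * Nb P r) * (((r : ℝ) + 1) * Nb P r)
            = (((r : ℝ) + 1) * Nb P r) ^ 2 * (8 * η) := by ring
        rw [e3, Real.sqrt_mul (sq_nonneg _), Real.sqrt_sq (mul_nonneg hr1 hNb)]

end Pool.Agent.Q102.IC
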